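import Pool.Agent.H30.VGH.Targets
import Pool.Agent.H64.SC.Api

/-!
# MM: moving Mason
-/

set_option autoImplicit false

namespace Pool.Agent.H34.VGH

open SC Pool.Agent.H27.LV Pool.Agent.H30.VGH Polynomial

theorem pf_MM (hPFM : T_PFM) (hMM1 : T_MM1) (hGAU : T_GAU) (hEVA : T_EVA) (hRAD : T_RAD) :
    T_MM := by
  classical
  intro k K _ _ _ _ _ _ htr D hD S d P τ a hd hnr ha hPa hPτ hout
  have : CharZero K := charZero_of_injective_algebraMap (algebraMap k K).injective
  have hP0 : P ≠ 0 := by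
    intro h
    rw [h, eval_zero] at hPτ
    exact hPτ rfl
  obtain ⟨G, p, hG, hp, hPeq, hcop, hdeg⟩ := hRAD K P hP0
  set lc := P.leadingCoeff with hlc
  have hlc0 : lc ≠ 0 := leadingCoeff_ne_zero.2 hP0
  obtain ⟨f1, s1⟩ := hPFM k K htr lc
  -- degrees
  have hdGp : G.natDegree + p.natDegree = d := by
    rw [← hd, hPeq, natDegree_C_mul hlc0, hG.natDegree_mul hp]
  have hr : 3 ≤ p.natDegree := by rw [hdeg]; exact hnr
  have hlca : ∀ v : DV k K, 0 ≤ v.ord lc + a v := by
    intro v
    have h := hPa v P.natDegree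
    rcases h with h | h
    · exact absurd h hlc0
    · have h' : -(a v : ℤ) ≤ v.ord lc := h
      linarith
  let a1 : DV k K → ℕ := fun v => (v.ord lc + a v).toNat
  have ha1 : ∀ v, (a1 v : ℤ) = v.ord lc + a v := fun v => Int.toNat_of_nonneg (hlca v)
  let b : DV k K → ℕ := fun v => 2 * a v + a1 v
  have hb : ∀ v, (b v : ℤ) = 2 * (a v : ℤ) + a1 v := fun v => by push_cast [b]; ring
  have ha1fin : a1.support.Finite := by
    refine (f1.union ha).subset (fun v hv => ?_)
    by_contra hcon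
    simp only [Set.mem_union, Set.mem_ofPred_eq, Function.mem_support, not_or, not_not] at hcon
    apply hv
    have := ha1 v
    rw [hcon.1, hcon.2] at this
    exact_mod_cast this
  have hbfin : b.support.Finite := by
    refine (ha.union ha1fin).subset (fun v hv => ?_)
    by_contra hcon
    simp only [Set.mem_union, Function.mem_support, not_or, not_not] at hcon
    apply hv
    have h1 := hcon.1
    have h2 := hcon.2
    change 2 * a v + a1 v = 0
    omega
  have hGp : G * p = C lc⁻¹ * P := by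
    conv_rhs => rw [hPeq]
    rw [← mul_assoc, ← C_mul, inv_mul_cancel₀ hlc0, C_1, one_mul]
  have hCGp : ∀ v : DV k K, Cge v (-(a1 v : ℤ)) (G * p) := by
    intro v i
    rw [hGp, coeff_C_mul]
    rcases hPa v i with h | h
    · left
      rw [h, mul_zero]
    · by_cases h0 : P.coeff i = 0
      · left
        rw [h0, mul_zero]
      · right
        rw [v.ord_mul' (inv_ne_zero hlc0) h0, v.ord_inv, ha1 v]
        linarith
  have hC : ∀ v : DV k K, Cge v (-(a1 v : ℤ)) G ∧ Cge v (-(a1 v : ℤ)) p :=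
    fun v => hGAU k K v (a1 v) G p hG hp (hCGp v)
  have hev : P.eval τ = lc * (G.eval τ * p.eval τ) := by
    conv_lhs => rw [hPeq]
    rw [eval_mul, eval_C, eval_mul]
  have hGτ : G.eval τ ≠ 0 := by
    intro h
    apply hPτ
    rw [hev, h, zero_mul, mul_zero]
  have hpτ : p.eval τ ≠ 0 := by
    intro h
    apply hPτ
    rw [hev, h, mul_zero, mul_zero]
  have hbound : ∀ v ∉ S, v.ord (p.eval τ) + a1 v + (p.natDegree : ℕ) * pe v τ ≤ b v := by
    intro v hv
    have h1 := hout v hv
    rw [hev, v.ord_mul' hlc0 (mul_ne_zero hGτ hpτ), v.ord_mul' hGτ hpτ] at h1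
    have h2 : -(a1 v : ℤ) - (G.natDegree : ℤ) * pe v τ ≤ v.ord (G.eval τ) := by
      rcases hEVA k K v (-(a1 v : ℤ)) G.natDegree G τ le_rfl (hC v).1 with h | h
      · exact absurd h hGτ
      · exact h
    have h3 : (d : ℤ) = G.natDegree + p.natDegree := by exact_mod_cast hdGp.symm
    rw [h3] at h1
    have h4 := ha1 v
    rw [hb v]
    nlinarith [h1, h2, h4]
  have hmain := hMM1 k K htr D hD S p.natDegree p τ a1 b hr hp rfl hcop ha1fin hbfin
    (fun v => (hC v).2) hpτ hbound
  -- the sums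
  have haZ : (Function.support fun v : DV k K => (a v : ℤ)).Finite := by
    refine ha.subset (fun v hv h => hv ?_)
    have h' : a v = 0 := h
    simp [h']
  have ha1Z : (Function.support fun v : DV k K => (a1 v : ℤ)).Finite := by
    refine ha1fin.subset (fun v hv h => hv ?_)
    have h' : a1 v = 0 := h
    simp [h']
  have hsa1 : ∑ᶠ v : DV k K, (a1 v : ℤ) = ∑ᶠ v : DV k K, (a v : ℤ) := by
    have e : (fun v : DV k K => (a1 v : ℤ)) = fun v => v.ord lc + (a v : ℤ) := funext ha1
    rw [e, finsum_add_distrib f1 haZ, s1, zero_add]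
  have hsb : ∑ᶠ v : DV k K, (b v : ℤ) = 3 * ∑ᶠ v : DV k K, (a v : ℤ) := by
    have e : (fun v : DV k K => (b v : ℤ)) = fun v => 2 * (a v : ℤ) + (a1 v : ℤ) := funext hb
    have h2 : (Function.support fun v : DV k K => 2 * (a v : ℤ)).Finite := by
      refine haZ.subset (fun v hv h => hv ?_)
      have h' : (a v : ℤ) = 0 := h
      simp [h']
    have h6 : ∑ᶠ v : DV k K, 2 * (a v : ℤ) = 2 * ∑ᶠ v : DV k K, (a v : ℤ) :=
      (mul_finsum' (fun v : DV k K => (a v : ℤ)) 2 haZ).symm
    rw [e, finsum_add_distrib h2 ha1Z, h6, hsa1]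
    ring
  rw [hsa1, hsb] at hmain
  have ha0 : 0 ≤ ∑ᶠ v : DV k K, (a v : ℤ) := finsum_nonneg (fun v => Int.natCast_nonneg _)
  have hrd : (p.natDegree : ℤ) ≤ d := by
    have : p.natDegree ≤ d := by omega
    exact_mod_cast this
  have h5 : (p.natDegree : ℤ) * ∑ᶠ v : DV k K, (a v : ℤ) ≤ d * ∑ᶠ v : DV k K, (a v : ℤ) :=
    mul_le_mul_of_nonneg_right hrd ha0
  linarith

end Pool.Agent.H34.VGH
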