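import Pool.Agent.H30.VGH.Targets

/-!
# MSM: the sum over all places
-/

set_option autoImplicit false

namespace Pool.Agent.H34.VGH

open SC Pool.Agent.H27.LV Pool.Agent.H30.VGH Polynomial

theorem pf_MSM (hPFM : T_PFM) (hDFI : T_DFI) : T_MSM := by
  classical
  intro k K _ _ _ _ _ _ htr D hD S r p B₁ ρ τ a b hr hp ha hb hpa hdeg hpτ hρ hρa hΩ hout hloc
  set Ω := ρ * D τ - B₁.eval τ with hΩdef
  obtain ⟨f1, s1⟩ := hPFM k K htr (p.eval τ)
  obtain ⟨f2, s2⟩ := hPFM k K htr ρ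
  obtain ⟨f3, s3⟩ := hPFM k K htr Ω
  obtain ⟨f4, _⟩ := hPFM k K htr τ
  have f5 := hDFI k K htr D hD
  let F : Finset (DV k K) := f1.toFinset ∪ f2.toFinset ∪ f3.toFinset ∪ f4.toFinset ∪
    f5.toFinset ∪ ha.toFinset ∪ hb.toFinset ∪ S
  have hF : ∀ v, (v.ord (p.eval τ) ≠ 0 ∨ v.ord ρ ≠ 0 ∨ v.ord Ω ≠ 0 ∨ v.ord τ ≠ 0 ∨
      ordD v D ≠ 0 ∨ a v ≠ 0 ∨ b v ≠ 0 ∨ v ∈ S) → v ∈ F := by
    intro v hv
    simp only [F, Finset.mem_union, Set.Finite.mem_toFinset, Set.mem_ofPred_eq,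
      Function.mem_support]
    tauto
  have g1 : ∑ᶠ v : DV k K, v.ord (p.eval τ) = ∑ v ∈ F, v.ord (p.eval τ) :=
    finsum_eq_sum_of_support_subset _ (fun v hv => hF v (Or.inl hv))
  have g2 : ∑ᶠ v : DV k K, v.ord ρ = ∑ v ∈ F, v.ord ρ :=
    finsum_eq_sum_of_support_subset _ (fun v hv => hF v (Or.inr (Or.inl hv)))
  have g3 : ∑ᶠ v : DV k K, v.ord Ω = ∑ v ∈ F, v.ord Ω :=
    finsum_eq_sum_of_support_subset _ (fun v hv => hF v (Or.inr (Or.inr (Or.inl hv))))
  have g4 : ∑ᶠ v : DV k K, pe v τ = ∑ v ∈ F, pe v τ := by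
    refine finsum_eq_sum_of_support_subset _ (fun v hv => hF v ?_)
    have : v.ord τ ≠ 0 := by
      intro h
      apply hv
      simp [pe, h]
    tauto
  have g5 : ∑ᶠ v : DV k K, ordD v D = ∑ v ∈ F, ordD v D :=
    finsum_eq_sum_of_support_subset _ (fun v hv => hF v (by
      have : ordD v D ≠ 0 := hv
      tauto))
  have g6 : ∑ᶠ v : DV k K, (a v : ℤ) = ∑ v ∈ F, (a v : ℤ) := by
    refine finsum_eq_sum_of_support_subset _ (fun v hv => hF v ?_)
    have : a v ≠ 0 := by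
      intro h
      apply hv
      simp [h]
    tauto
  have g7 : ∑ᶠ v : DV k K, (b v : ℤ) = ∑ v ∈ F, (b v : ℤ) := by
    refine finsum_eq_sum_of_support_subset _ (fun v hv => hF v ?_)
    have : b v ≠ 0 := by
      intro h
      apply hv
      simp [h]
    tauto
  have hS : ∑ v ∈ F, (if v ∈ S then (1 : ℤ) else 0) = S.card := by
    rw [Finset.sum_boole]
    congr 2
    ext v
    simp only [Finset.mem_filter]
    exact ⟨fun h => h.2, fun h => ⟨hF v (by tauto), h⟩⟩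
  -- the local inequality
  have key : ∀ v ∈ F, ordD v D - ((r : ℤ) - 1) * pe v τ + (v.ord (p.eval τ) + a v + r * pe v τ
      - b v - (if v ∈ S then (1 : ℤ) else 0)) - (v.ord ρ + 2 * r * a v) - 5 * r * a v ≤
      v.ord Ω := by
    intro v _
    rcases hloc v with h | h
    · exact absurd h hΩ
    · refine le_trans ?_ h
      have h1 : v.ord (p.eval τ) + a v + r * pe v τ - b v - (if v ∈ S then (1 : ℤ) else 0) ≤
          max 0 (v.ord (p.eval τ) + a v + r * pe v τ - 1) := by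
        have hb0 : (0 : ℤ) ≤ b v := Int.natCast_nonneg _
        by_cases hvS : v ∈ S
        · rw [if_pos hvS]
          exact le_trans (by linarith) (le_max_right _ _)
        · rw [if_neg hvS]
          exact le_trans (by linarith [hout v hvS]) (le_max_left _ _)
      linarith
  have hsum := Finset.sum_le_sum key
  simp only [Finset.sum_sub_distrib, Finset.sum_add_distrib, ← Finset.mul_sum] at hsum
  rw [← g1, ← g2, ← g3, ← g4, ← g5, ← g6, ← g7, hS, s1, s2, s3] at hsum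
  have hcan : ∑ᶠ v : DV k K, ordD v D = - canDeg D := by
    unfold canDeg
    rw [neg_neg]
  rw [hcan] at hsum
  have ha0 : 0 ≤ ∑ᶠ v : DV k K, (a v : ℤ) := finsum_nonneg (fun v => Int.natCast_nonneg _)
  nlinarith [hsum, ha0]

end Pool.Agent.H34.VGH
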